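import Pool.Agent.helper82.KN.Spec

set_option autoImplicit false

open Finset Polynomial

namespace Pool.Agent.KN

theorem MLI_sum {V : Type} [Fintype V] [DecidableEq V] (u v w : V) (g : V → ℤ) :
    ∑ x, ((if x = u then 1 else 0) + (if x = v then 1 else 0) + (if x = w then (1 : ℤ) else 0)) * g x = g u + g v + g w := by
  simp only [add_mul, sum_add_distrib, ite_mul, one_mul, zero_mul, sum_ite_eq', mem_univ, if_true]

theorem MLI_uniq {V : Type} [Fintype V] [DecidableEq V] (A M : Matrix V V ℤ) (hD : MData A M)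
    (hM : ∀ u v, A u v = 1 → M u v = -6) (u v : V) (huv : A u v = 1) :
    ∃ w, A u w = 1 ∧ A v w = 1 ∧ ∀ x, A u x = 1 → A v x = 1 → x = w := by
  have hne : u ≠ v := by
    rintro rfl
    rw [hD.diag] at huv
    omega
  have h1 := hD.sq u v
  rw [hM u v huv, huv, if_neg hne] at h1
  rw [Matrix.mul_apply] at h1
  have h2 : ∑ j, A u j * A j v = ∑ j, if A u j = 1 ∧ A v j = 1 then (1 : ℤ) else 0 := by
    refine sum_congr rfl fun j _ => ?_
    rw [hD.symm j v]
    rcases hD.zo u j with h3 | h3 <;> rcases hD.zo v j with h4 | h4 <;> simp [h3, h4]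
  rw [h2, sum_boole] at h1
  have h5 : (univ.filter fun j => A u j = 1 ∧ A v j = 1).card = 1 := by
    have h6 : ((univ.filter fun j => A u j = 1 ∧ A v j = 1).card : ℤ) = 1 := by
      rw [h1]
      norm_num
    exact_mod_cast h6
  obtain ⟨w, hw⟩ := card_eq_one.mp h5
  have hw1 : w ∈ univ.filter fun j => A u j = 1 ∧ A v j = 1 := by
    rw [hw]
    exact mem_singleton_self w
  refine ⟨w, (mem_filter.mp hw1).2.1, (mem_filter.mp hw1).2.2, fun x hx1 hx2 => ?_⟩
  have hx : x ∈ univ.filter fun j => A u j = 1 ∧ A v j = 1 := mem_filter.mpr ⟨mem_univ _, hx1, hx2⟩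
  rw [hw] at hx
  exact mem_singleton.mp hx

theorem MLI (hMPO : MPO_stmt) : MLI_stmt := by
  intro V _ _ A M hD hM
  classical
  have hex : ∀ u v : V, ∃ w, A u v = 1 → (A u w = 1 ∧ A v w = 1 ∧ ∀ x, A u x = 1 → A v x = 1 → x = w) := by
    intro u v
    by_cases h : A u v = 1
    · obtain ⟨w, hw⟩ := MLI_uniq A M hD hM u v h
      exact ⟨w, fun _ => hw⟩
    · exact ⟨u, fun h' => absurd h' h⟩
  choose p hp using hex
  refine ⟨hD, hM, p, ?_⟩
  intro u v huv
  obtain ⟨h1, h2, h3⟩ := hp u v huv
  have h4 : p u (p u v) = v := by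
    have h5 := (hp u (p u v) h1).2.2 v huv (by rw [hD.symm]; exact h2)
    exact h5.symm
  refine ⟨h1, h2, h4, fun w hw1 hw2 => h3 w hw1 hw2, ?_⟩
  have h6 := hMPO V A M hD
    (fun x => (if x = u then 1 else 0) + (if x = v then 1 else 0) + (if x = p u v then (1 : ℤ) else 0))
  have h7 : ∀ x : V, ∑ y, ((if y = u then 1 else 0) + (if y = v then 1 else 0) + (if y = p u v then (1 : ℤ) else 0)) * M x y =
      M x u + M x v + M x (p u v) := fun x => MLI_sum u v (p u v) (fun y => M x y)
  have e1 := hM u v huv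
  have e2 := hM u (p u v) h1
  have e3 := hM v (p u v) h2
  have h8 := h6.2 (by
    have h9 : ∀ x : V, ∑ y, ((if x = u then 1 else 0) + (if x = v then 1 else 0) + (if x = p u v then (1 : ℤ) else 0)) *
        ((if y = u then 1 else 0) + (if y = v then 1 else 0) + (if y = p u v then (1 : ℤ) else 0)) * M x y =
        ((if x = u then 1 else 0) + (if x = v then 1 else 0) + (if x = p u v then (1 : ℤ) else 0)) *
        (M x u + M x v + M x (p u v)) := by
      intro x
      rw [← h7 x, Finset.mul_sum]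
      refine sum_congr rfl fun y _ => ?_
      ring
    rw [sum_congr rfl fun x _ => h9 x, MLI_sum u v (p u v) (fun x => M x u + M x v + M x (p u v))]
    have d1 := hD.mdiag u
    have d2 := hD.mdiag v
    have d3 := hD.mdiag (p u v)
    have s1 := hD.msymm v u
    have s2 := hD.msymm (p u v) u
    have s3 := hD.msymm (p u v) v
    rw [d1, d2, d3, s1, s2, s3, e1, e2, e3]
    norm_num)
  intro z
  have h10 := h8 z
  rw [h7 z] at h10
  rw [hD.msymm u z, hD.msymm v z, hD.msymm (p u v) z]
  exact h10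

end Pool.Agent.KN
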