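import Pool.Agent.helper82.KN.Spec

set_option autoImplicit false

open Finset Polynomial

namespace Pool.Agent.KN

open Matrix

/-- the trace does not change under conjugation -/
theorem SPC_tr {V : Type} [Fintype V] [DecidableEq V] (U : Matrix.unitaryGroup V ℝ) (M : Matrix V V ℝ) :
    (Unitary.conjStarAlgAut ℝ _ U M).trace = M.trace := by
  rw [Unitary.conjStarAlgAut_apply, Matrix.trace_mul_comm, ← mul_assoc, Unitary.coe_star_mul_self, one_mul]

theorem SPC_sum {V : Type} [Fintype V] [DecidableEq V] (θ : V → ℝ)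
    (h : ∀ i, θ i = 20 ∨ θ i = -10 ∨ θ i = 4 ∨ θ i = -1) (F : ℝ → ℝ) :
    ∑ i, F (θ i) = ((univ.filter fun i => θ i = 20).card : ℝ) * F 20 + ((univ.filter fun i => θ i = -10).card : ℝ) * F (-10) +
      ((univ.filter fun i => θ i = 4).card : ℝ) * F 4 + ((univ.filter fun i => θ i = -1).card : ℝ) * F (-1) := by
  have h1 := Finset.sum_fiberwise_of_maps_to (s := univ) (t := ({20, -10, 4, -1} : Finset ℝ)) (g := θ)
    (fun i _ => by
      simp only [mem_insert, mem_singleton]
      exact h i) (fun i => F (θ i))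
  rw [← h1]
  have h2 : ∀ y : ℝ, ∑ i ∈ univ.filter (fun i => θ i = y), F (θ i) = ((univ.filter fun i => θ i = y).card : ℝ) * F y := by
    intro y
    rw [sum_congr rfl (g := fun _ => F y), sum_const, nsmul_eq_mul]
    intro i hi
    rw [(mem_filter.mp hi).2]
  simp only [h2]
  rw [sum_insert (by norm_num), sum_insert (by norm_num), sum_insert (by norm_num), sum_singleton]
  ring

theorem SPC_prod {V : Type} [Fintype V] [DecidableEq V] (θ : V → ℝ)
    (h : ∀ i, θ i = 20 ∨ θ i = -10 ∨ θ i = 4 ∨ θ i = -1) :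
    ∏ i, (X - C (θ i)) = (X - 20) ^ (univ.filter fun i => θ i = 20).card * (X + 10) ^ (univ.filter fun i => θ i = -10).card *
      (X - 4) ^ (univ.filter fun i => θ i = 4).card * (X + 1 : ℝ[X]) ^ (univ.filter fun i => θ i = -1).card := by
  have h1 := Finset.prod_fiberwise_of_maps_to (s := univ) (t := ({20, -10, 4, -1} : Finset ℝ)) (g := θ)
    (fun i _ => by
      simp only [mem_insert, mem_singleton]
      exact h i) (fun i => (X - C (θ i) : ℝ[X]))
  rw [← h1]
  have h2 : ∀ y : ℝ, ∏ i ∈ univ.filter (fun i => θ i = y), (X - C (θ i) : ℝ[X]) =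
      (X - C y) ^ (univ.filter fun i => θ i = y).card := by
    intro y
    rw [prod_congr rfl (g := fun _ => (X - C y : ℝ[X])), prod_const]
    intro i hi
    rw [(mem_filter.mp hi).2]
  simp only [h2]
  rw [prod_insert (by norm_num), prod_insert (by norm_num), prod_insert (by norm_num), prod_singleton]
  have e1 : (X - C (20 : ℝ) : ℝ[X]) = X - 20 := rfl
  have e2 : (X - C (-10 : ℝ) : ℝ[X]) = X + 10 := by
    rw [map_neg, sub_neg_eq_add]
    rfl
  have e3 : (X - C (4 : ℝ) : ℝ[X]) = X - 4 := rfl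
  have e4 : (X - C (-1 : ℝ) : ℝ[X]) = X + 1 := by
    rw [map_neg, sub_neg_eq_add, map_one]
  rw [e1, e2, e3, e4]
  ring

theorem SPC : SPC_stmt := by
  intro V _ _ A hS
  set B : Matrix V V ℝ := A.map (fun x : ℤ => (x : ℝ)) with hB
  have hBe : ∀ u v, B u v = (A u v : ℝ) := fun _ _ => rfl
  have hher : B.IsHermitian := by
    ext u v
    rw [Matrix.conjTranspose_apply, hBe, hBe, hS.symm v u]
    rfl
  let J : Matrix V V ℝ := Matrix.of fun _ _ => 1
  have hcub : B * B * B + (7 : ℝ) • (B * B) - (34 : ℝ) • B - (40 : ℝ) • 1 = (120 : ℝ) • J := by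
    have h1 := congrArg (Int.castRingHom ℝ).mapMatrix hS.cub
    have h2 : (Int.castRingHom ℝ).mapMatrix A = B := rfl
    have h3 : (Int.castRingHom ℝ).mapMatrix (JJ V) = J := by
      ext u v
      simp [JJ, J]
    rw [map_sub, map_sub, map_add, map_mul, map_mul, map_zsmul, map_zsmul, map_zsmul, map_zsmul, map_mul, h2, h3, map_one] at h1
    have h4 : ∀ (n : ℤ) (M : Matrix V V ℝ), n • M = (n : ℝ) • M := by
      intro n M
      ext u v
      simp
    rw [h4, h4, h4, h4] at h1
    exact_mod_cast h1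
  have hrow : ∀ u, ∑ v, B u v = 20 := by
    intro u
    have h1 := hS.row u
    simp only [hBe]
    exact_mod_cast h1
  have hBJ : (B - (20 : ℝ) • 1) * ((120 : ℝ) • J) = 0 := by
    ext u v
    rw [Matrix.mul_smul, Matrix.smul_apply, Matrix.sub_mul, Matrix.smul_mul, Matrix.one_mul, Matrix.sub_apply,
      Matrix.mul_apply]
    have h1 : ∑ j, B u j * J j v = 20 := by
      have h2 : ∀ j, B u j * J j v = B u j := fun j => mul_one _
      rw [sum_congr rfl fun j _ => h2 j]
      exact hrow u
    rw [h1]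
    simp [J]
  set θ := hher.eigenvalues with hθ
  set D : Matrix V V ℝ := diagonal θ with hD
  set Φ := Unitary.conjStarAlgAut ℝ (Matrix V V ℝ) hher.eigenvectorUnitary with hΦ
  have hBD : B = Φ D := hher.spectral_theorem
  have hq : ∀ i, (θ i - 20) * (θ i ^ 3 + 7 * θ i ^ 2 - 34 * θ i - 40) = 0 := by
    intro i
    rw [← hcub, hBD] at hBJ
    have h1 : Φ ((D - (20 : ℝ) • 1) * (D * D * D + (7 : ℝ) • (D * D) - (34 : ℝ) • D - (40 : ℝ) • 1)) = Φ 0 := by
      rw [map_zero, ← hBJ]
      simp only [map_mul, map_sub, map_add, map_smul, map_one]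
    have h2 := Φ.injective h1
    have h3 := congrFun (congrFun h2 i) i
    rw [hD] at h3
    simp only [Matrix.diagonal_mul_diagonal, ← Matrix.diagonal_one, ← Matrix.diagonal_smul, Matrix.diagonal_add, Matrix.diagonal_sub,
      Matrix.diagonal_apply_eq, Matrix.zero_apply] at h3
    simp only [Pi.smul_apply, smul_eq_mul] at h3
    linear_combination h3
  have hval : ∀ i, θ i = 20 ∨ θ i = -10 ∨ θ i = 4 ∨ θ i = -1 := by
    intro i
    have h1 : (θ i - 20) * ((θ i - 20) * 0 + (θ i + 10) * ((θ i - 4) * (θ i + 1))) = 0 := by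
      linear_combination hq i
    rcases mul_eq_zero.mp h1 with h2 | h2
    · left; linarith
    · have h3 : (θ i + 10) * ((θ i - 4) * (θ i + 1)) = 0 := by linarith
      rcases mul_eq_zero.mp h3 with h4 | h4
      · right; left; linarith
      · rcases mul_eq_zero.mp h4 with h5 | h5
        · right; right; left; linarith
        · right; right; right; linarith
  have t1 : ∑ i, θ i = 0 := by
    have h1 : B.trace = ∑ i, θ i := by
      rw [hBD, SPC_tr, hD, Matrix.trace_diagonal]
    rw [← h1]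
    refine sum_eq_zero fun u _ => ?_
    rw [Matrix.diag_apply, hBe, hS.diag]
    simp
  have t2 : ∑ i, θ i ^ 2 = 1680 := by
    have h1 : (B * B).trace = ∑ i, θ i ^ 2 := by
      rw [hBD, ← map_mul, SPC_tr, hD, Matrix.diagonal_mul_diagonal, Matrix.trace_diagonal]
      exact sum_congr rfl fun i _ => (sq (θ i)).symm
    rw [← h1]
    have h2 : ∀ u, (B * B) u u = 20 := by
      intro u
      rw [Matrix.mul_apply, ← hrow u]
      refine sum_congr rfl fun v _ => ?_
      rw [hBe, hBe, hS.symm v u]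
      rcases hS.zo u v with h3 | h3 <;> simp [h3]
    show ∑ u, (B * B) u u = 1680
    rw [sum_congr rfl fun u _ => h2 u, sum_const, card_univ, hS.card]
    norm_num
  have t3 : ∑ i, (θ i ^ 3 + 7 * θ i ^ 2 - 34 * θ i - 40) = 10080 := by
    have h1 : ((120 : ℝ) • J).trace = ∑ i, (θ i ^ 3 + 7 * θ i ^ 2 - 34 * θ i - 40) := by
      rw [← hcub, hBD]
      have h2 : Φ D * Φ D * Φ D + (7 : ℝ) • (Φ D * Φ D) - (34 : ℝ) • Φ D - (40 : ℝ) • 1 =
          Φ (D * D * D + (7 : ℝ) • (D * D) - (34 : ℝ) • D - (40 : ℝ) • 1) := by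
        simp only [map_mul, map_sub, map_add, map_smul, map_one]
      rw [h2, SPC_tr, hD]
      simp only [Matrix.diagonal_mul_diagonal, ← Matrix.diagonal_one, ← Matrix.diagonal_smul, Matrix.diagonal_add,
        Matrix.diagonal_sub, Matrix.trace_diagonal]
      refine sum_congr rfl fun i _ => ?_
      simp only [Pi.smul_apply, smul_eq_mul]
      ring
    rw [← h1, Matrix.trace_smul]
    have h3 : J.trace = 84 := by
      show ∑ u : V, (1 : ℝ) = 84
      rw [sum_const, card_univ, hS.card]
      norm_num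
    rw [h3]
    norm_num
  have t0 : ∑ _i : V, (1 : ℝ) = 84 := by
    rw [sum_const, card_univ, hS.card]
    norm_num
  have s0 := SPC_sum θ hval (fun _ => 1)
  have s1 := SPC_sum θ hval (fun x => x)
  have s2 := SPC_sum θ hval (fun x => x ^ 2)
  have s3 := SPC_sum θ hval (fun x => x ^ 3 + 7 * x ^ 2 - 34 * x - 40)
  rw [t0] at s0
  rw [t1] at s1
  rw [t2] at s2
  rw [t3] at s3
  rw [hher.charpoly_eq]
  show ∏ i, (X - C (θ i)) = P93 ℝ
  rw [SPC_prod θ hval]
  set m := (univ.filter fun i => θ i = 20).card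
  set c := (univ.filter fun i => θ i = -10).card
  set a := (univ.filter fun i => θ i = 4).card
  set b := (univ.filter fun i => θ i = -1).card
  have r3 : (m : ℝ) = 1 := by linarith
  have r4 : (a : ℝ) = 27 := by linarith
  have r5 : (c : ℝ) = 8 := by linarith
  have r6 : (b : ℝ) = 48 := by linarith
  have r3' : m = 1 := by exact_mod_cast r3
  have r4' : a = 27 := by exact_mod_cast r4
  have r5' : c = 8 := by exact_mod_cast r5
  have r6' : b = 48 := by exact_mod_cast r6
  rw [r3', r4', r5', r6', pow_one]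
  rfl

end Pool.Agent.KN
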